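import Pool.Agent.Helper81.C9.DefsF
import Pool.Agent.Helper81.C9.Lie

/-!
Project LT (MP_b8862a_ag), block FCOM of C9: matrices of the module of the folded Lie algebra that commute with the fixed
root vectors of level different from zero are scalars.
-/

set_option linter.unusedSectionVars false

open Matrix Module MH

namespace C9

namespace FC98

open RD

variable {r N : ℕ} {D : RD r N} {σ : Fin r → Fin r} {τ : Fin N → Fin N}

/-- the complex vector of an integral vector -/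
def cC {n : Type*} (u : n → ℤ) : n → ℂ := fun c => (u c : ℂ)

theorem cC_add {n : Type*} (u w : n → ℤ) : cC (u + w) = cC u + cC w := by
  funext c
  simp [cC]

theorem cC_sub {n : Type*} (u w : n → ℤ) : cC (u - w) = cC u - cC w := by
  funext c
  simp [cC]

theorem cC_neg {n : Type*} (u : n → ℤ) : cC (-u) = -cC u := by
  funext c
  simp [cC]

theorem cC_smul {n : Type*} (k : ℤ) (u : n → ℤ) : cC (k • u) = (k : ℂ) • cC u := by
  funext c
  simp [cC]

theorem toC_LL (w u : Fin r ⊕ Fin N → ℤ) : toC (D.LL w) *ᵥ cC u = cC (D.br w u) := by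
  funext c
  have h1 := congrArg (fun q : ℚ => (q : ℂ)) (congrFun (LL_mulVec (D := D) w u) c)
  simp only [Matrix.mulVec, dotProduct, cV] at h1
  push_cast at h1
  simp only [Matrix.mulVec, dotProduct, cC]
  rw [← h1]
  refine Finset.sum_congr rfl fun b _ => ?_
  simp [toC]

theorem LL_add (u w : Fin r ⊕ Fin N → ℤ) : D.LL (u + w) = D.LL u + D.LL w := by
  unfold LL
  rw [← Finset.sum_add_distrib]
  refine Finset.sum_congr rfl fun c _ => ?_
  rw [Pi.add_apply, Int.cast_add, add_smul]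

theorem LL_neg (u : Fin r ⊕ Fin N → ℤ) : D.LL (-u) = -D.LL u := by
  unfold LL
  rw [← Finset.sum_neg_distrib]
  refine Finset.sum_congr rfl fun c _ => ?_
  rw [Pi.neg_apply, Int.cast_neg, neg_smul]

theorem L_E (h : D.Ok) (a : Fin N) : D.L (.inr a) = D.LL (D.E (D.v a)) := by
  rw [E_single h, ← L_eq]

theorem LLE (h : D.Ok) {x z : Fin r → ℤ} (hx : D.R x) (hz : D.R z) :
    D.LL (D.E x) * D.LL (D.E z) - D.LL (D.E z) * D.LL (D.E x) = D.LL (D.br (D.E x) (D.E z)) := by
  obtain ⟨a, rfl⟩ := hx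
  obtain ⟨b, rfl⟩ := hz
  rw [E_single h, E_single h, ← L_eq, ← L_eq, h.jac, br_single]
  rfl

/-- the elements of the Cartan algebra are diagonal -/
theorem LL_H (h : D.Ok) (u : Fin r → ℤ) :
    D.LL (D.Hh u) = Matrix.diagonal (Sum.elim (fun _ => 0) fun b => (D.ip u (D.v b) : ℚ)) := by
  refine ext_cV fun b => ?_
  rw [LL_mulVec]
  funext c
  rw [Matrix.mulVec_diagonal]
  rcases b with b | b
  · rw [← Hh_single (D := D), br_HH]
    rcases c with c | c
    · simp [cV]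
    · simp [cV, Hh]
  · rw [← E_single h, br_HE h]
    rcases c with c | c
    · simp [cV, E]
    · simp only [cV, Pi.smul_apply, smul_eq_mul, Sum.elim_inr, Int.cast_mul]
      by_cases hc : D.v c = D.v b
      · rw [hc]
      · have : D.E (D.v b) (.inr c) = 0 := by
          show (if D.v c = D.v b then (1 : ℤ) else 0) = 0
          rw [if_neg hc]
        rw [this]
        simp

/-! ### the automorphism -/

theorem sum_s (f : D.Fold σ τ) {A : Type*} [AddCommMonoid A] (g : Fin r → A) : ∑ i, g (σ i) = ∑ i, g i :=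
  Equiv.sum_comp (Function.Involutive.toPerm σ f.ss) g

theorem bf_s (f : D.Fold σ τ) (x z : Fin r → ℤ) : D.bf (x ∘ σ) (z ∘ σ) = D.bf x z := by
  unfold bf
  rw [← sum_s f]
  refine Finset.sum_congr rfl fun i _ => ?_
  rw [← sum_s f]
  refine Finset.sum_congr rfl fun j _ => ?_
  rw [f.Bs, Function.comp_apply, Function.comp_apply, f.ss, f.ss]

theorem ip_s (h : D.Ok) (f : D.Fold σ τ) (x z : Fin r → ℤ) : D.ip (x ∘ σ) (z ∘ σ) = D.ip x z := by
  rw [h.ip_eq, h.ip_eq, bf_s f, bf_s f]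

theorem lev_s (f : D.Fold σ τ) (x : Fin r → ℤ) : D.lev (x ∘ σ) = D.lev x := by
  unfold lev
  rw [← sum_s f]
  refine Finset.sum_congr rfl fun i _ => ?_
  rw [f.ys, Function.comp_apply, f.ss]

theorem ss_comp (f : D.Fold σ τ) (x : Fin r → ℤ) : (x ∘ σ) ∘ σ = x := by
  funext i
  simp [f.ss]

theorem v_t (f : D.Fold σ τ) (a : Fin N) : D.v (τ a) = D.v a ∘ σ := funext (f.vt a)

theorem R_s (f : D.Fold σ τ) {x : Fin r → ℤ} (hx : D.R x) : D.R (x ∘ σ) := by
  obtain ⟨a, rfl⟩ := hx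
  exact ⟨τ a, v_t f a⟩

theorem ip_s' (h : D.Ok) (f : D.Fold σ τ) (x z : Fin r → ℤ) : D.ip x (z ∘ σ) = D.ip (x ∘ σ) z := by
  rw [← ip_s h f x, ss_comp f]

/-- the permutation of the basis -/
def ps (σ : Fin r → Fin r) (τ : Fin N → Fin N) : Fin r ⊕ Fin N → Fin r ⊕ Fin N := Sum.map σ τ

theorem ps_ps (f : D.Fold σ τ) (c : Fin r ⊕ Fin N) : ps σ τ (ps σ τ c) = c := by
  rcases c with c | c
  · exact congrArg Sum.inl (f.ss c)
  · exact congrArg Sum.inr (f.tt c)

theorem E_ps (f : D.Fold σ τ) (x : Fin r → ℤ) (c : Fin r ⊕ Fin N) : D.E x (ps σ τ c) = D.E (x ∘ σ) c := by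
  rcases c with c | c
  · rfl
  · show (if D.v (τ c) = x then (1 : ℤ) else 0) = if D.v c = x ∘ σ then 1 else 0
    congr 1
    rw [v_t f]
    exact propext ⟨fun h => by rw [← h, ss_comp f], fun h => by rw [h, ss_comp f]⟩

theorem Hh_ps (x : Fin r → ℤ) (c : Fin r ⊕ Fin N) : D.Hh x (ps σ τ c) = D.Hh (x ∘ σ) c := by
  rcases c with c | c <;> rfl

theorem Th_eq (f : D.Fold σ τ) (c b : Fin r ⊕ Fin N) : toC (Th σ τ) c b = if b = ps σ τ c then 1 else 0 := by
  have h1 : ∀ {α : Type} (g : α → α) (_ : ∀ a, g (g a) = a) (a b : α), a = g b ↔ b = g a := by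
    intro α g hg a b
    exact ⟨fun h => by rw [h, hg], fun h => by rw [h, hg]⟩
  rcases c with c | c <;> rcases b with b | b
  · show algebraMap ℚ ℂ (if c = σ b then 1 else 0) = if (Sum.inl b : Fin r ⊕ Fin N) = Sum.inl (σ c) then 1 else 0
    by_cases hcb : c = σ b
    · rw [if_pos hcb, if_pos (congrArg Sum.inl ((h1 σ f.ss c b).1 hcb)), map_one]
    · rw [if_neg hcb, if_neg (fun hh => hcb ((h1 σ f.ss c b).2 (Sum.inl_injective hh))), map_zero]
  · show algebraMap ℚ ℂ (0 : ℚ) = if (Sum.inr b : Fin r ⊕ Fin N) = Sum.inl (σ c) then 1 else 0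
    rw [if_neg (by simp), map_zero]
  · show algebraMap ℚ ℂ (0 : ℚ) = if (Sum.inl b : Fin r ⊕ Fin N) = Sum.inr (τ c) then 1 else 0
    rw [if_neg (by simp), map_zero]
  · show algebraMap ℚ ℂ (if c = τ b then 1 else 0) = if (Sum.inr b : Fin r ⊕ Fin N) = Sum.inr (τ c) then 1 else 0
    by_cases hcb : c = τ b
    · rw [if_pos hcb, if_pos (congrArg Sum.inr ((h1 τ f.tt c b).1 hcb)), map_one]
    · rw [if_neg hcb, if_neg (fun hh => hcb ((h1 τ f.tt c b).2 (Sum.inr_injective hh))), map_zero]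

theorem Th_mulVec (f : D.Fold σ τ) (w : Fin r ⊕ Fin N → ℂ) : toC (Th σ τ) *ᵥ w = w ∘ ps σ τ := by
  funext c
  rw [Matrix.mulVec, dotProduct, Finset.sum_eq_single (ps σ τ c)]
  · rw [Th_eq f, if_pos rfl, one_mul]
    rfl
  · intro b _ hb
    rw [Th_eq f, if_neg hb, zero_mul]
  · intro hh
    exact absurd (Finset.mem_univ _) hh

theorem toC_ef : toC (ef σ τ) = (1 / 2 : ℂ) • (1 - toC (Th σ τ)) := by
  ext i j
  simp only [toC, ef, Matrix.map_apply, Matrix.smul_apply, Matrix.sub_apply, Matrix.one_apply, smul_eq_mul]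
  split_ifs <;> simp

theorem ef_mulVec (f : D.Fold σ τ) (w : Fin r ⊕ Fin N → ℂ) : toC (ef σ τ) *ᵥ w = (1 / 2 : ℂ) • (w - w ∘ ps σ τ) := by
  rw [toC_ef, Matrix.smul_mulVec, Matrix.sub_mulVec, Matrix.one_mulVec, Th_mulVec f]

theorem ef_ef (f : D.Fold σ τ) : toC (ef σ τ) * toC (ef σ τ) = toC (ef σ τ) := by
  refine Matrix.ext_of_mulVec_single fun b => ?_
  rw [← Matrix.mulVec_mulVec, ef_mulVec f, ef_mulVec f]
  funext c
  simp only [Pi.smul_apply, Pi.sub_apply, Function.comp_apply, smul_eq_mul, ps_ps f]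
  ring

/-- the form is definite -/
theorem nd (h : D.Ok) {x : Fin r → ℤ} (hx : ∀ j, D.ip (Pi.single j 1) x = 0) : x = 0 := by
  by_contra hne
  have h1 := h.pd (fun i => (x i : ℝ)) (by
    intro h0
    apply hne
    funext i
    have h5 : (x i : ℝ) = 0 := congrFun h0 i
    exact_mod_cast h5)
  have h2 : ∑ i, ∑ j, (x i : ℝ) * (D.G i j : ℝ) * (x j : ℝ) = ((D.ip x x : ℤ) : ℝ) := by
    unfold ip
    push_cast
    rfl
  have h3 : D.ip x x = 0 := by
    rw [← ip_single_sum]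
    exact Finset.sum_eq_zero fun i _ => by rw [hx, mul_zero]
  rw [h2, h3] at h1
  simp at h1

/-- the vectors of the module -/
def Wv (D : RD r N) (σ : Fin r → Fin r) (x : Fin r → ℤ) : Fin r ⊕ Fin N → ℤ := D.E x - D.E (x ∘ σ)

/-- the vectors of the zero weight space of the module -/
def Gv (D : RD r N) (σ : Fin r → Fin r) (x : Fin r → ℤ) : Fin r ⊕ Fin N → ℤ := D.Hh (x - x ∘ σ)

theorem Gv_sub (x z : Fin r → ℤ) : Gv D σ (x - z) = Gv D σ x - Gv D σ z := by
  unfold Gv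
  rw [sub_eq_add_neg (D.Hh _), ← Hh_neg, ← Hh_add]
  congr 1
  funext i
  simp only [Pi.sub_apply, Pi.add_apply, Pi.neg_apply, Function.comp_apply]
  ring

theorem ip_sub_left (x z w : Fin r → ℤ) : D.ip (x - z) w = D.ip x w - D.ip z w := by
  rw [sub_eq_add_neg, D.ip_add_left, D.ip_neg_left, sub_eq_add_neg]

/-- a root vector of the opposite root -/
theorem P_neg (h : D.Ok) (f : D.Fold σ τ) {a : Fin N} (ha : D.ip (D.v a) (D.v (τ a)) = 0) :
    D.br (D.E (-D.v a) + D.E ((-D.v a) ∘ σ)) (Wv D σ (D.v a)) = Gv D σ (D.v a) := by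
  have hx : D.R (D.v a) := ⟨a, rfl⟩
  have hxs : D.R (D.v a ∘ σ) := R_s f hx
  have e0 : (-D.v a) ∘ σ = -(D.v a ∘ σ) := rfl
  rw [v_t f] at ha
  rw [e0]
  unfold Wv Gv
  rw [map_sub, map_add, LinearMap.add_apply, LinearMap.add_apply,
    EE_opp h (h.R_neg hx) (neg_neg _).symm, EE_opp h (h.R_neg hxs) (neg_neg _).symm,
    EE_zero h (h.R_neg hxs) hx (by rw [D.ip_neg_left, h.ip_comm, ha, neg_zero]),
    EE_zero h (h.R_neg hx) hxs (by rw [D.ip_neg_left, ha, neg_zero]), Hh_neg, Hh_neg, neg_neg, neg_neg, add_zero, zero_add,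
    sub_eq_add_neg (D.v a), Hh_add, Hh_neg, ← sub_eq_add_neg]

/-- the root vectors on the zero weight space -/
theorem P_G (h : D.Ok) (f : D.Fold σ τ) (x u : Fin r → ℤ) :
    D.br (D.E x + D.E (x ∘ σ)) (Gv D σ u) = -(D.ip (u - u ∘ σ) x • Wv D σ x) := by
  have e1 : D.ip (u - u ∘ σ) (x ∘ σ) = -D.ip (u - u ∘ σ) x := by
    rw [ip_sub_left, ip_sub_left, ip_s h f, ip_s' h f]
    ring
  unfold Gv Wv
  rw [map_add, LinearMap.add_apply, br_EH h, br_EH h, e1, smul_sub]
  module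

/-- the commutator of two opposite root vectors -/
theorem comm_P (h : D.Ok) (f : D.Fold σ τ) {a : Fin N} (ho : τ a ≠ a → D.ip (D.v a) (D.v (τ a)) = 0) :
    ∃ k : ℚ, k ≠ 0 ∧ D.LL (D.E (D.v a) + D.E (D.v a ∘ σ)) * D.LL (D.E (-D.v a) + D.E ((-D.v a) ∘ σ)) -
      D.LL (D.E (-D.v a) + D.E ((-D.v a) ∘ σ)) * D.LL (D.E (D.v a) + D.E (D.v a ∘ σ)) =
      k • D.LL (D.Hh (D.v a + D.v a ∘ σ)) := by
  have hx : D.R (D.v a) := ⟨a, rfl⟩
  have hxs : D.R (D.v a ∘ σ) := R_s f hx
  have e0 : (-D.v a) ∘ σ = -(D.v a ∘ σ) := rfl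
  rw [e0]
  have c1 := LLE h hx (h.R_neg hx)
  have c2 := LLE h hx (h.R_neg hxs)
  have c3 := LLE h hxs (h.R_neg hx)
  have c4 := LLE h hxs (h.R_neg hxs)
  rw [EE_opp h hx rfl] at c1
  rw [EE_opp h hxs rfl] at c4
  have hsum : D.LL (D.E (D.v a) + D.E (D.v a ∘ σ)) * D.LL (D.E (-D.v a) + D.E (-(D.v a ∘ σ))) -
      D.LL (D.E (-D.v a) + D.E (-(D.v a ∘ σ))) * D.LL (D.E (D.v a) + D.E (D.v a ∘ σ)) =
      (D.LL (D.E (D.v a)) * D.LL (D.E (-D.v a)) - D.LL (D.E (-D.v a)) * D.LL (D.E (D.v a))) +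
      (D.LL (D.E (D.v a)) * D.LL (D.E (-(D.v a ∘ σ))) - D.LL (D.E (-(D.v a ∘ σ))) * D.LL (D.E (D.v a))) +
      (D.LL (D.E (D.v a ∘ σ)) * D.LL (D.E (-D.v a)) - D.LL (D.E (-D.v a)) * D.LL (D.E (D.v a ∘ σ))) +
      (D.LL (D.E (D.v a ∘ σ)) * D.LL (D.E (-(D.v a ∘ σ))) - D.LL (D.E (-(D.v a ∘ σ))) * D.LL (D.E (D.v a ∘ σ))) := by
    rw [LL_add, LL_add]
    noncomm_ring
  rw [hsum, c1, c2, c3, c4]
  by_cases hf : τ a = a
  · have e1 : D.v a ∘ σ = D.v a := by rw [← v_t f, hf]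
    refine ⟨-2, by norm_num, ?_⟩
    rw [e1, EE_opp h hx rfl, Hh_add, LL_add, LL_neg]
    module
  · have e1 := ho hf
    rw [v_t f] at e1
    refine ⟨-1, by norm_num, ?_⟩
    rw [EE_zero h hx (h.R_neg hxs) (by rw [D.ip_neg_right, e1, neg_zero]),
      EE_zero h hxs (h.R_neg hx) (by rw [D.ip_neg_right, h.ip_comm, e1, neg_zero]), Hh_add, LL_add, LL_neg, LL_neg]
    have e2 : D.LL 0 = 0 := by
      unfold LL
      simp
    rw [e2]
    module

theorem toC_sub' {n : Type*} (A B : Matrix n n ℚ) : toC (A - B) = toC A - toC B := by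
  ext i j
  simp [toC]

theorem toC_add' {n : Type*} (A B : Matrix n n ℚ) : toC (A + B) = toC A + toC B := by
  ext i j
  simp [toC]

theorem toC_mul' {n : Type*} [Fintype n] (A B : Matrix n n ℚ) : toC (A * B) = toC A * toC B := by
  unfold toC
  rw [Matrix.map_mul]

theorem toC_smul'' {n : Type*} (k : ℚ) (A : Matrix n n ℚ) : toC (k • A) = (k : ℂ) • toC A := by
  ext i j
  simp [toC]

end FC98

open FC98

namespace RD

variable {r N : ℕ} {D : RD r N} {σ : Fin r → Fin r} {τ : Fin N → Fin N}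

/-- BLOCK FCOM: matrices of the module that commute with the fixed root vectors of level different from zero are scalars -/
theorem Fold.scalar (h : D.Ok) (f : D.Fold σ τ)
    (c0 : ∀ a, τ a ≠ a → D.lev (D.v a) = -1 ∨ D.lev (D.v a) = 0 ∨ D.lev (D.v a) = 1)
    (c1 : ∀ j, D.y j = 0 → ∃ a b, D.lev (D.v a) = 1 ∧ D.v b = D.v a + Pi.single j 1)
    (c2 : ∀ a b, τ a ≠ a → τ b ≠ b → D.lev (D.v a) = 1 → D.lev (D.v b) = 1 →
      ∃ c, τ c ≠ c ∧ D.lev (D.v c) = 1 ∧ D.ip (D.v c - D.v (τ c)) (D.v a) ≠ 0 ∧ D.ip (D.v b - D.v (τ b)) (D.v c) ≠ 0)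
    (c3 : ∀ c, τ c ≠ c → D.lev (D.v c) = 0 → ∃ a, τ a = a ∧ D.lev (D.v a) = 1 ∧ D.ip (D.v a) (D.v c) = -1)
    (c4 : ∃ a, τ a ≠ a ∧ D.lev (D.v a) = 1)
    (c5 : ∀ b c, τ b ≠ b → τ c ≠ c → D.v c + D.v (τ c) = D.v b + D.v (τ b) → c = b ∨ c = τ b)
    (X : Matrix (Fin r ⊕ Fin N) (Fin r ⊕ Fin N) ℂ) (heX : toC (ef σ τ) * X * toC (ef σ τ) = X)
    (hX : ∀ a, D.lev (D.v a) ≠ 0 →
      X * toC (D.L (.inr a) + D.L (.inr (τ a))) = toC (D.L (.inr a) + D.L (.inr (τ a))) * X) :
    ∃ b : ℂ, X = b • toC (ef σ τ) := by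
  classical
  have hXr : X * toC (ef σ τ) = X := by
    rw [← heX, mul_assoc, mul_assoc, ef_ef f, ← mul_assoc]
  have hXl : toC (ef σ τ) * X = X := by
    rw [← heX, mul_assoc, ← mul_assoc, ef_ef f]
  have hXe : ∀ w, X *ᵥ w = (1 / 2 : ℂ) • (X *ᵥ (w - w ∘ ps σ τ)) := by
    intro w
    conv_lhs => rw [← hXr, ← Matrix.mulVec_mulVec, ef_mulVec f, Matrix.mulVec_smul]
  have hXa : ∀ c b, X (ps σ τ c) b = -X c b := by
    intro c b
    have e1 : ∀ c, (X *ᵥ Pi.single b 1) c = (1 / 2 : ℂ) * ((X *ᵥ Pi.single b 1) c - (X *ᵥ Pi.single b 1) (ps σ τ c)) := by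
      intro c
      have e2 := congrFun (ef_mulVec f (X *ᵥ Pi.single b 1)) c
      rw [Matrix.mulVec_mulVec, hXl] at e2
      exact e2
    have e3 := e1 c
    simp only [Matrix.mulVec_single_one, Matrix.col_apply] at e3
    linear_combination (2 : ℂ) * e3
  have hXb : ∀ c b, X c (ps σ τ b) = -X c b := by
    intro c b
    have e1 := congrFun (hXe (Pi.single b 1)) c
    have e2 : (Pi.single b 1 : Fin r ⊕ Fin N → ℂ) ∘ ps σ τ = Pi.single (ps σ τ b) 1 := by
      funext d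
      rw [Function.comp_apply, Pi.single_apply, Pi.single_apply]
      congr 1
      exact propext ⟨fun hh => by rw [← hh, ps_ps f], fun hh => by rw [hh, ps_ps f]⟩
    rw [e2, Matrix.mulVec_sub] at e1
    simp only [Matrix.mulVec_single_one, Pi.smul_apply, Pi.sub_apply, Matrix.col_apply, smul_eq_mul] at e1
    linear_combination (2 : ℂ) * e1
  -- the root vectors
  have hP : ∀ a, D.lev (D.v a) ≠ 0 → X * toC (D.LL (D.E (D.v a) + D.E (D.v a ∘ σ))) =
      toC (D.LL (D.E (D.v a) + D.E (D.v a ∘ σ))) * X := by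
    intro a ha
    have e1 := hX a ha
    rw [L_E h, L_E h, v_t f, ← LL_add] at e1
    exact e1
  have hP' : ∀ a, D.lev (D.v a) ≠ 0 → X * toC (D.LL (D.E (-D.v a) + D.E ((-D.v a) ∘ σ))) =
      toC (D.LL (D.E (-D.v a) + D.E ((-D.v a) ∘ σ))) * X := by
    intro a ha
    obtain ⟨a', ha'⟩ := h.neg a
    rw [← ha']
    apply hP
    rw [ha', D.lev_neg]
    omega
  have hPv : ∀ a, D.lev (D.v a) ≠ 0 → ∀ (u : Fin r ⊕ Fin N → ℤ), X *ᵥ cC (D.br (D.E (D.v a) + D.E (D.v a ∘ σ)) u) =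
      toC (D.LL (D.E (D.v a) + D.E (D.v a ∘ σ))) *ᵥ (X *ᵥ cC u) := by
    intro a ha u
    rw [← toC_LL, Matrix.mulVec_mulVec, hP a ha, Matrix.mulVec_mulVec]
  have hPv' : ∀ a, D.lev (D.v a) ≠ 0 → ∀ (u : Fin r ⊕ Fin N → ℤ),
      X *ᵥ cC (D.br (D.E (-D.v a) + D.E ((-D.v a) ∘ σ)) u) =
      toC (D.LL (D.E (-D.v a) + D.E ((-D.v a) ∘ σ))) *ᵥ (X *ᵥ cC u) := by
    intro a ha u
    rw [← toC_LL, Matrix.mulVec_mulVec, hP' a ha, Matrix.mulVec_mulVec]
  -- the torus
  have hT : ∀ a, D.lev (D.v a) ≠ 0 → X * toC (D.LL (D.Hh (D.v a + D.v a ∘ σ))) =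
      toC (D.LL (D.Hh (D.v a + D.v a ∘ σ))) * X := by
    intro a ha
    obtain ⟨k, hk, e1⟩ := comm_P h f (f.orth a)
    have e2 := congrArg toC e1
    rw [toC_sub', toC_mul', toC_mul', toC_smul''] at e2
    have e3 : X * ((k : ℂ) • toC (D.LL (D.Hh (D.v a + D.v a ∘ σ)))) =
        ((k : ℂ) • toC (D.LL (D.Hh (D.v a + D.v a ∘ σ)))) * X := by
      rw [← e2, mul_sub, sub_mul]
      congr 1
      · rw [← mul_assoc, hP a ha, mul_assoc, hP' a ha, mul_assoc]
      · rw [← mul_assoc, hP' a ha, mul_assoc, hP a ha, mul_assoc]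
    rw [mul_smul_comm, smul_mul_assoc] at e3
    exact smul_right_injective _ (by exact_mod_cast hk) e3
  have hTd : ∀ a, D.lev (D.v a) ≠ 0 → ∀ c b, X c b *
      (Sum.elim (fun _ => 0) (fun b => (D.ip (D.v a + D.v a ∘ σ) (D.v b) : ℚ)) b : ℚ) =
      (Sum.elim (fun _ => 0) (fun b => (D.ip (D.v a + D.v a ∘ σ) (D.v b) : ℚ)) c : ℚ) * X c b := by
    intro a ha c b
    have e1 := congrFun (congrFun (hT a ha) c) b
    have e2 : toC (D.LL (D.Hh (D.v a + D.v a ∘ σ))) = Matrix.diagonal fun b =>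
        ((Sum.elim (fun _ => 0) (fun b => (D.ip (D.v a + D.v a ∘ σ) (D.v b) : ℚ)) b : ℚ) : ℂ) := by
      rw [LL_H h]
      ext i j
      rw [toC, Matrix.map_apply, Matrix.diagonal_apply, Matrix.diagonal_apply]
      split_ifs <;> simp
    rw [e2, Matrix.mul_diagonal, Matrix.diagonal_mul] at e1
    exact e1
  have hTj : ∀ j c b, X c b *
      (Sum.elim (fun _ => 0) (fun b => (D.ip (Pi.single j 1) (D.v b + D.v b ∘ σ) : ℚ)) b : ℚ) =
      (Sum.elim (fun _ => 0) (fun b => (D.ip (Pi.single j 1) (D.v b + D.v b ∘ σ) : ℚ)) c : ℚ) * X c b := by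
    intro j c b
    have e0 : ∀ (x : Fin r → ℤ) (b : Fin r ⊕ Fin N),
        (Sum.elim (fun _ => 0) (fun b => (D.ip (x + x ∘ σ) (D.v b) : ℚ)) b : ℚ) =
        Sum.elim (fun _ => 0) (fun b => (D.ip x (D.v b + D.v b ∘ σ) : ℚ)) b := by
      intro x b
      rcases b with b | b
      · rfl
      · simp only [Sum.elim_inr]
        rw [D.ip_add_left, D.ip_add_right, ip_s' h f]
    by_cases hj : D.y j = 0
    · obtain ⟨a, a', ha, ha'⟩ := c1 j hj
      have hls : D.lev (Pi.single j 1) = 0 := by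
        rw [← hj]
        unfold lev
        rw [Finset.sum_eq_single j]
        · rw [Pi.single_eq_same, mul_one]
        · intro i _ hi
          rw [Pi.single_eq_of_ne hi, mul_zero]
        · intro hh
          exact absurd (Finset.mem_univ _) hh
      have hlb : D.lev (D.v a') ≠ 0 := by rw [ha', D.lev_add, ha, hls]; decide
      have e1 := hTd a (by omega) c b
      have e2 := hTd a' hlb c b
      rw [e0, e0] at e1 e2
      have e3 : ∀ b : Fin r ⊕ Fin N,
          (Sum.elim (fun _ => 0) (fun b => (D.ip (Pi.single j 1) (D.v b + D.v b ∘ σ) : ℚ)) b : ℚ) =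
          Sum.elim (fun _ => 0) (fun b => (D.ip (D.v a') (D.v b + D.v b ∘ σ) : ℚ)) b -
          Sum.elim (fun _ => 0) (fun b => (D.ip (D.v a) (D.v b + D.v b ∘ σ) : ℚ)) b := by
        intro b
        rcases b with b | b
        · simp
        · simp only [Sum.elim_inr]
          rw [ha', D.ip_add_left]
          push_cast
          ring
      rw [e3, e3]
      push_cast
      rw [mul_sub, sub_mul, e1, e2]
    · obtain ⟨a, ha⟩ := h.simp j
      have hls : D.lev (Pi.single j 1) ≠ 0 := by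
        have : D.lev (Pi.single j 1) = D.y j := by
          unfold lev
          rw [Finset.sum_eq_single j]
          · rw [Pi.single_eq_same, mul_one]
          · intro i _ hi
            rw [Pi.single_eq_of_ne hi, mul_zero]
          · intro hh
            exact absurd (Finset.mem_univ _) hh
        rw [this]
        exact hj
      have e1 := hTd a (by rw [ha]; exact hls) c b
      rw [ha, e0, e0] at e1
      exact e1
  -- the entries
  have hnorm : ∀ b, τ b ≠ b → D.v b + D.v b ∘ σ ≠ 0 := by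
    intro b hb h0
    have e1 : D.ip (D.v b + D.v b ∘ σ) (D.v b) = 0 := by rw [h0, D.ip_zero_left]
    rw [D.ip_add_left, h.two, h.ip_comm, ← v_t f, f.orth b hb] at e1
    omega
  have hx1 : ∀ i b, τ b ≠ b → X (.inl i) (.inr b) = 0 := by
    intro i b hb
    have e1 : ∃ j, D.ip (Pi.single j 1) (D.v b + D.v b ∘ σ) ≠ 0 := by
      by_contra hcon
      push Not at hcon
      exact hnorm b hb (nd h hcon)
    obtain ⟨j, hj⟩ := e1
    have e2 := hTj j (.inl i) (.inr b)
    simp only [Sum.elim_inl, Sum.elim_inr, Rat.cast_zero, zero_mul] at e2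
    refine (mul_eq_zero.1 e2).resolve_right ?_
    exact_mod_cast hj
  have hx2 : ∀ c b, τ b ≠ b → c ≠ b → c ≠ τ b → X (.inr c) (.inr b) = 0 := by
    intro c b hb hcb hcb'
    by_cases hc : τ c = c
    · have e1 := hXa (.inr c) (.inr b)
      have e2 : ps σ τ (.inr c) = .inr c := congrArg Sum.inr hc
      rw [e2] at e1
      linear_combination (1 / 2 : ℂ) * e1
    · have e1 : ∃ j, D.ip (Pi.single j 1) (D.v b + D.v b ∘ σ) ≠ D.ip (Pi.single j 1) (D.v c + D.v c ∘ σ) := by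
        by_contra hcon
        push Not at hcon
        have e2 : D.v c + D.v c ∘ σ + -(D.v b + D.v b ∘ σ) = 0 := nd h fun j => by
          rw [D.ip_add_right, D.ip_neg_right, hcon j]
          ring
        have e3 : D.v c + D.v (τ c) = D.v b + D.v (τ b) := by
          rw [v_t f, v_t f]
          exact add_neg_eq_zero.1 e2
        rcases c5 b c hb hc e3 with h4 | h4
        · exact hcb h4
        · exact hcb' h4
      obtain ⟨j, hj⟩ := e1
      have e2 := hTj j (.inr c) (.inr b)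
      simp only [Sum.elim_inr, Rat.cast_intCast] at e2
      have e3 : X (.inr c) (.inr b) * ((D.ip (Pi.single j 1) (D.v b + D.v b ∘ σ) : ℂ) -
          (D.ip (Pi.single j 1) (D.v c + D.v c ∘ σ) : ℂ)) = 0 := by
        rw [mul_sub, e2]
        ring
      refine (mul_eq_zero.1 e3).resolve_right fun hh => hj ?_
      have e4 := sub_eq_zero.1 hh
      exact_mod_cast e4
  -- the eigenvectors
  have hvb : ∀ b, τ b ≠ b → D.v b ≠ D.v b ∘ σ := by
    intro b hb hh
    rw [← v_t f] at hh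
    exact hb (h.inj hh).symm
  obtain ⟨la, hla⟩ : ∃ la : Fin N → ℂ, ∀ b, τ b ≠ b → X *ᵥ cC (Wv D σ (D.v b)) = la b • cC (Wv D σ (D.v b)) := by
    refine ⟨fun b => 2 * X (.inr b) (.inr b), fun b hb => ?_⟩
    have e0 : cC (Wv D σ (D.v b)) = Pi.single (Sum.inr b) 1 - Pi.single (ps σ τ (Sum.inr b)) 1 := by
      unfold Wv
      rw [← v_t f, E_single h, E_single h, cC_sub]
      have e1 : ∀ d : Fin r ⊕ Fin N, cC (Pi.single d 1 : Fin r ⊕ Fin N → ℤ) = Pi.single d 1 := by
        intro d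
        funext c
        simp only [cC, Pi.single_apply]
        split_ifs <;> simp
      rw [e1, e1]
      rfl
    have e1 : X *ᵥ cC (Wv D σ (D.v b)) = fun c => 2 * X c (.inr b) := by
      rw [e0, Matrix.mulVec_sub, Matrix.mulVec_single_one, Matrix.mulVec_single_one]
      funext c
      rw [Pi.sub_apply, Matrix.col_apply, Matrix.col_apply, hXb]
      ring
    have e3 : ps σ τ (Sum.inr b) = Sum.inr (τ b) := rfl
    rw [e1, e0, e3]
    funext c
    rw [Pi.smul_apply, Pi.sub_apply, smul_eq_mul]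
    rcases c with c | c
    · rw [hx1 c b hb, Pi.single_apply, Pi.single_apply, if_neg (by simp), if_neg (by simp)]
      ring
    · rw [Pi.single_apply, Pi.single_apply]
      by_cases h1 : c = b
      · subst h1
        rw [if_pos rfl, if_neg (fun hh => hb (Sum.inr_injective hh).symm)]
        ring
      · rw [if_neg (fun hh => h1 (Sum.inr_injective hh))]
        by_cases h2 : c = τ b
        · subst h2
          have e2 := hXa (.inr b) (.inr b)
          rw [e3] at e2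
          rw [e2, if_pos rfl]
          ring
        · rw [hx2 c b hb h1 h2, if_neg (fun hh => h2 (Sum.inr_injective hh))]
          ring
  have hW0 : ∀ b, τ b ≠ b → cC (Wv D σ (D.v b)) ≠ 0 := by
    intro b hb hh
    have e1 := congrFun hh (.inr b)
    have e2 : Wv D σ (D.v b) (.inr b) = 1 := by
      show (if D.v b = D.v b then (1 : ℤ) else 0) - (if D.v b = D.v b ∘ σ then 1 else 0) = 1
      rw [if_pos rfl, if_neg (hvb b hb), sub_zero]
    rw [cC, e2] at e1
    simp at e1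
  -- the zero weight space
  have hG : ∀ b, τ b ≠ b → D.lev (D.v b) ≠ 0 → X *ᵥ cC (Gv D σ (D.v b)) = la b • cC (Gv D σ (D.v b)) := by
    intro b hb hl
    have e1 := hPv' b hl (Wv D σ (D.v b))
    rw [P_neg h f (f.orth b hb), hla b hb, Matrix.mulVec_smul, toC_LL, P_neg h f (f.orth b hb)] at e1
    exact e1
  have hR : ∀ a b, τ a ≠ a → τ b ≠ b → D.lev (D.v a) ≠ 0 → D.lev (D.v b) ≠ 0 →
      D.ip (D.v b - D.v b ∘ σ) (D.v a) ≠ 0 → la a = la b := by
    intro a b ha hb hla' hlb hab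
    have e1 := hPv a hla' (Gv D σ (D.v b))
    rw [hG b hb hlb, Matrix.mulVec_smul, toC_LL, P_G h f, cC_neg, cC_smul, Matrix.mulVec_neg, Matrix.mulVec_smul,
      hla a ha, smul_neg, neg_inj, smul_smul, smul_smul, ← sub_eq_zero, ← sub_smul] at e1
    have e2 := (smul_eq_zero.1 e1).resolve_right (hW0 a ha)
    have e3 : (D.ip (D.v b - D.v b ∘ σ) (D.v a) : ℂ) * (la a - la b) = 0 := by
      rw [← e2]
      ring
    exact sub_eq_zero.1 ((mul_eq_zero.1 e3).resolve_left (by exact_mod_cast hab))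
  obtain ⟨a0, ha0, hl0⟩ := c4
  have h7 : ∀ a, τ a ≠ a → D.lev (D.v a) = 1 → la a = la a0 := by
    intro a ha hl
    obtain ⟨c, hc, hlc, h2, h3⟩ := c2 a a0 ha ha0 hl hl0
    rw [v_t f] at h2 h3
    rw [hR a c ha hc (by omega) (by omega) h2, hR c a0 hc ha0 (by omega) (by omega) h3]
  have h8 : ∀ a, τ a ≠ a → la a = la a0 := by
    intro a ha
    rcases c0 a ha with hl | hl | hl
    · obtain ⟨a', ha'⟩ := h.neg a
      have hl' : D.lev (D.v a') = 1 := by rw [ha', D.lev_neg, hl]; norm_num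
      have ht : τ a' ≠ a' := by
        intro hh
        apply ha
        apply h.inj
        have e1 := v_t f a'
        rw [hh, ha'] at e1
        rw [v_t f]
        have e2 : -D.v a = -(D.v a ∘ σ) := e1
        exact (neg_injective e2).symm
      rw [hR a a' ha ht (by omega) (by omega) ?_, h7 a' ht hl']
      have e1 : D.v a' - D.v a' ∘ σ = -D.v a + D.v a ∘ σ := by
        rw [ha']
        funext i
        simp
      rw [e1, D.ip_add_left, D.ip_neg_left, h.two, h.ip_comm, ← v_t f, f.orth a ha]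
      omega
    · obtain ⟨b, hb, hlb, hbc⟩ := c3 a ha hl
      obtain ⟨d, hd⟩ := h.add b a hbc
      have hbs : D.v b ∘ σ = D.v b := by rw [← v_t f, hb]
      have hld : D.lev (D.v d) = 1 := by rw [hd, D.lev_add, hlb, hl]; norm_num
      have hds : D.v d ∘ σ = D.v b + D.v a ∘ σ := by
        rw [hd]
        conv_rhs => rw [← hbs]
        rfl
      have htd : τ d ≠ d := by
        intro hh
        apply hvb a ha
        have e1 : D.v d ∘ σ = D.v d := by rw [← v_t f, hh]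
        rw [hds, hd] at e1
        exact (add_left_cancel e1).symm
      have hRb : D.R (D.v b) := ⟨b, rfl⟩
      have hRa : D.R (D.v a) := ⟨a, rfl⟩
      have hbc' : D.ip (D.v b) (D.v a ∘ σ) = -1 := by rw [ip_s' h f, hbs, hbc]
      have hbf : D.bf (D.v b) (D.v a ∘ σ) = D.bf (D.v b) (D.v a) := by
        conv_lhs => rw [← hbs]
        exact bf_s f _ _
      have e1 : D.br (D.E (D.v b) + D.E (D.v b ∘ σ)) (Wv D σ (D.v a)) =
          (2 * sg (D.bf (D.v b) (D.v a))) • Wv D σ (D.v d) := by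
        rw [hbs]
        unfold Wv
        rw [map_sub, map_add, LinearMap.add_apply, LinearMap.add_apply, EE_neg1 h hRb hRa hbc,
          EE_neg1 h hRb (R_s f hRa) hbc', hbf, ← hd, hds]
        module
      have e2 := hPv b (by omega) (Wv D σ (D.v a))
      rw [hla a ha, Matrix.mulVec_smul, toC_LL, e1, cC_smul, Matrix.mulVec_smul, hla d htd, smul_smul, smul_smul,
        ← sub_eq_zero, ← sub_smul] at e2
      have e3 := (smul_eq_zero.1 e2).resolve_right (hW0 d htd)
      have e4 : ((2 * sg (D.bf (D.v b) (D.v a)) : ℤ) : ℂ) * (la d - la a) = 0 := by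
        rw [← e3]
        ring
      have e5 : (2 * sg (D.bf (D.v b) (D.v a)) : ℤ) ≠ 0 := by
        unfold sg
        split_ifs <;> decide
      have e6 := sub_eq_zero.1 ((mul_eq_zero.1 e4).resolve_left (by exact_mod_cast e5))
      rw [← e6]
      exact h7 d htd hld
    · exact h7 a ha hl
  have hG' : ∀ b, D.lev (D.v b) ≠ 0 → X *ᵥ cC (Gv D σ (D.v b)) = la a0 • cC (Gv D σ (D.v b)) := by
    intro b hl
    by_cases hb : τ b = b
    · have e1 : D.v b ∘ σ = D.v b := by rw [← v_t f, hb]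
      have e2 : cC (Gv D σ (D.v b)) = 0 := by
        unfold Gv
        rw [e1, sub_self]
        funext c
        rcases c with c | c <;> simp [cC, Hh]
      rw [e2, Matrix.mulVec_zero, smul_zero]
    · rw [hG b hb hl, h8 b hb]
  have hGj : ∀ j, X *ᵥ cC (Gv D σ (Pi.single j 1)) = la a0 • cC (Gv D σ (Pi.single j 1)) := by
    intro j
    have hls : D.lev (Pi.single j 1) = D.y j := by
      unfold lev
      rw [Finset.sum_eq_single j]
      · rw [Pi.single_eq_same, mul_one]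
      · intro i _ hi
        rw [Pi.single_eq_of_ne hi, mul_zero]
      · intro hh
        exact absurd (Finset.mem_univ _) hh
    by_cases hj : D.y j = 0
    · obtain ⟨a, a', ha, ha'⟩ := c1 j hj
      have hlb : D.lev (D.v a') ≠ 0 := by rw [ha', D.lev_add, ha, hls, hj]; decide
      have e1 : (Pi.single j 1 : Fin r → ℤ) = D.v a' - D.v a := by rw [ha', add_sub_cancel_left]
      rw [e1, Gv_sub, cC_sub, Matrix.mulVec_sub, hG' a' hlb, hG' a (by omega), smul_sub]
    · obtain ⟨a, ha⟩ := h.simp j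
      rw [← ha]
      apply hG'
      rw [ha, hls]
      exact hj
  -- the end
  refine ⟨la a0, Matrix.ext_of_mulVec_single fun b => ?_⟩
  rw [hXe, Matrix.smul_mulVec, ef_mulVec f, smul_comm (la a0)]
  congr 1
  have e1 : ∀ d : Fin r ⊕ Fin N, (Pi.single d 1 : Fin r ⊕ Fin N → ℂ) = cC (Pi.single d 1 : Fin r ⊕ Fin N → ℤ) := by
    intro d
    funext c
    simp only [cC, Pi.single_apply]
    split_ifs <;> simp
  rcases b with b | b
  · have e2 : (Pi.single (Sum.inl b) 1 - Pi.single (Sum.inl b) 1 ∘ ps σ τ : Fin r ⊕ Fin N → ℂ) =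
        cC (Gv D σ (Pi.single b 1)) := by
      rw [e1, ← Hh_single (D := D)]
      funext c
      have e3 := Hh_ps (D := D) (σ := σ) (τ := τ) (Pi.single b 1) c
      show ((D.Hh (Pi.single b 1) c : ℤ) : ℂ) - ((D.Hh (Pi.single b 1) (ps σ τ c) : ℤ) : ℂ) =
        ((D.Hh (Pi.single b 1 - (Pi.single b 1) ∘ σ) c : ℤ) : ℂ)
      rw [e3, sub_eq_add_neg (Pi.single b 1 : Fin r → ℤ), Hh_add, Hh_neg, Pi.add_apply, Pi.neg_apply]
      push_cast
      ring
    rw [e2]
    exact hGj b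
  · have e2 : (Pi.single (Sum.inr b) 1 - Pi.single (Sum.inr b) 1 ∘ ps σ τ : Fin r ⊕ Fin N → ℂ) =
        cC (Wv D σ (D.v b)) := by
      rw [e1, ← E_single h]
      funext c
      have e3 := E_ps f (D.v b) c
      show ((D.E (D.v b) c : ℤ) : ℂ) - ((D.E (D.v b) (ps σ τ c) : ℤ) : ℂ) =
        (((D.E (D.v b) - D.E (D.v b ∘ σ)) c : ℤ) : ℂ)
      rw [e3, Pi.sub_apply]
      push_cast
      ring
    rw [e2]
    by_cases hb : τ b = b
    · have e4 : D.v b ∘ σ = D.v b := by rw [← v_t f, hb]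
      have e5 : cC (Wv D σ (D.v b)) = 0 := by
        unfold Wv
        rw [e4, sub_self]
        funext c
        simp [cC]
      rw [e5, Matrix.mulVec_zero, smul_zero]
    · rw [hla b hb, h8 b hb]

end RD

end C9
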