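import Pool.Agent.Helper81.C9.Fasm
import Pool.Agent.Helper63.C9.E6

/-!
Project LT (MP_b8862a_ag), block C9: the data of `F_4` (folding of `E_6`).
-/

set_option linter.unusedSectionVars false

open Matrix Module MH

namespace C9

theorem RD.ip_wy {r N : ℕ} (D : RD r N) (y : Fin r → ℤ) (x z : Fin r → ℤ) : RD.ip { D with y := y } x z = D.ip x z := rfl

theorem RD.Ok.wy {r N : ℕ} {D : RD r N} (h : D.Ok) (y : Fin r → ℤ) : RD.Ok { D with y := y } where
  gb := h.gb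
  two := h.two
  inj := h.inj
  neg := h.neg
  add := h.add
  bd := h.bd
  simp := h.simp
  gi := h.gi
  d0 := h.d0
  pd := h.pd

namespace F4D

/-- the table of the automorphism -/
def TA : ℕ := 0x47464544434240413c3d3e3f3b38363a37393531332f3430322e262c282a252b272d291d1f1b211c231e2420221115121713191416181a100607080c090a0b0d0e0f050001020304

/-- the automorphism on the roots -/
def tau (a : Fin 72) : Fin 72 := Fin.ofNat 72 (TA >>> (8 * a.val) % 256)

/-- the automorphism on the simple roots -/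
def sig : Fin 6 → Fin 6 := ![4, 3, 2, 1, 0, 5]

/-- the root datum -/
def E : RD 6 72 := { E6 with y := ![0, 0, 0, 0, 0, 1] }

theorem ip_eq (x z : Fin 6 → ℤ) : E.ip x z = q6 x z := (RD.ip_wy E6 _ x z).trans (ip6 x z)

theorem lev_eq (x : Fin 6 → ℤ) : E.lev x = x 5 := by
  simp [RD.lev, E, Fin.sum_univ_six]

theorem ok : E.Ok := E6.ok.wy _

theorem f0 : ∀ a, tau a ≠ a → v6 a 5 = -1 ∨ v6 a 5 = 0 ∨ v6 a 5 = 1 := by decide +kernel

theorem f1 : ∀ j : Fin 6, j ≠ 5 → ∃ a b : Fin 72, v6 a 5 = 1 ∧ v6 b = v6 a + Pi.single j 1 := by decide +kernel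

theorem f2 : ∀ a, tau a ≠ a → v6 a 5 = 1 → ∀ b, tau b ≠ b → v6 b 5 = 1 → ∃ c, tau c ≠ c ∧ v6 c 5 = 1 ∧
    q6 (v6 c - v6 (tau c)) (v6 a) ≠ 0 ∧ q6 (v6 b - v6 (tau b)) (v6 c) ≠ 0 := by decide +kernel

theorem f3 : ∀ c, tau c ≠ c → v6 c 5 = 0 → ∃ a, tau a = a ∧ v6 a 5 = 1 ∧ q6 (v6 a) (v6 c) = -1 := by decide +kernel

theorem f4 : ∃ a, tau a ≠ a ∧ v6 a 5 = 1 := by decide +kernel

theorem f5 : ∀ b, tau b ≠ b → ∀ c, tau c ≠ c → v6 c + v6 (tau c) = v6 b + v6 (tau b) → c = b ∨ c = tau b := by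
  decide +kernel

theorem f6 : ∀ i, ∑ b with tau b ≠ b, q6 (Pi.single i 1) (v6 b) * v6 b 5 = 12 * E.y i := by decide +kernel

theorem fs : (Finset.univ.filter fun a => tau a ≠ a ∧ v6 a 5 = 1).card = 2 * 6 := by decide +kernel

theorem ft : (Finset.univ.filter fun i => sig i ≠ i).card + (Finset.univ.filter fun a => tau a ≠ a ∧ v6 a 5 = 0).card =
    2 * 14 := by decide +kernel

theorem fold : E.Fold sig tau where
  ss := by decide
  tt := by decide +kernel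
  vt := (by decide +kernel : ∀ a i, v6 (tau a) i = v6 a (sig i))
  Bs i j := congr_fun (congr_fun (by decide +kernel : E.B.submatrix sig sig = E.B) i) j
  ys := by decide +kernel
  orth a h := (ip_eq _ _).trans ((by decide +kernel : ∀ a, tau a ≠ a → q6 (v6 a) (v6 (tau a)) = 0) a h)

end F4D

/-- BLOCK DATA for `F_4`. -/
theorem sharp_F4 : Sharp 6 14 := by
  refine F4D.fold.sharp F4D.ok (fun a h => ?_) (fun j hj => ?_) (fun a b ha hb h1 h2 => ?_) (fun c hc h => ?_)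
    ?_ (fun b c hb hc h => F4D.f5 b hb c hc h) (κ := 12) (by norm_num) (fun i => ?_) ?_ ?_ (by norm_num)
  · rw [F4D.lev_eq]
    exact F4D.f0 a h
  · obtain ⟨a, b, h1, h2⟩ := F4D.f1 j (by rintro rfl; exact absurd hj (by decide))
    exact ⟨a, b, (F4D.lev_eq _).trans h1, h2⟩
  · obtain ⟨c, h3, h4, h5, h6⟩ := F4D.f2 a ha ((F4D.lev_eq _).symm.trans h1) b hb ((F4D.lev_eq _).symm.trans h2)
    exact ⟨c, h3, (F4D.lev_eq _).trans h4, by rw [F4D.ip_eq]; exact h5, by rw [F4D.ip_eq]; exact h6⟩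
  · obtain ⟨a, h1, h2, h3⟩ := F4D.f3 c hc ((F4D.lev_eq _).symm.trans h)
    exact ⟨a, h1, (F4D.lev_eq _).trans h2, (F4D.ip_eq _ _).trans h3⟩
  · obtain ⟨a, h1, h2⟩ := F4D.f4
    exact ⟨a, h1, (F4D.lev_eq _).trans h2⟩
  · simp only [F4D.ip_eq, F4D.lev_eq]
    exact F4D.f6 i
  · simp only [F4D.lev_eq]
    exact F4D.fs
  · simp only [F4D.lev_eq]
    exact F4D.ft

end C9
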